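import Pool.Agent.J4H22.IX.Stm3
import Pool.Agent.J4H53.IX.Ras

set_option autoImplicit false

/-! Project IX, piece RAC: from random to deterministic structures for a class of sets. -/

namespace Pool.Agent.J4H53.IX

open Finset Filter Topology
open Pool.Agent.J4H22.IX

theorem RCStructure_mono {O : Type} {Ok : Finset ℕ → Finset ℕ → ℕ → O → Prop} {Cl : Finset ℕ → Prop} {s w t : ℕ} {δ δ' : ℝ}
    (h : δ' ≤ δ) (hR : RCStructure O Ok Cl s w t δ) : RCStructure O Ok Cl s w t δ' := by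
  obtain ⟨Ω, iΩ, μ, Q, h0, h1, h2, h3⟩ := hR
  refine ⟨Ω, iΩ, μ, Q, h0, h1, h2, ?_⟩
  intro A B hA hB
  obtain ⟨m, hm⟩ := h3 A B hA hB
  exact ⟨m, fun z => le_trans (by linarith) (hm z)⟩

/-- piece RAC -/
theorem t_RAC : S_RAC := by
  intro hAMC hDEC hCHE hNEW hMAJ hTRE hIDX c Cl hc hCl
  rintro ⟨ε, C, hε, hF⟩
  obtain ⟨e, he⟩ : ∃ e : ℝ, e = min ε 1 / 2 := ⟨_, rfl⟩
  have he0 : 0 < e := by rw [he]; have := lt_min hε one_pos; linarith
  have he1 : e ≤ 1 / 2 := by rw [he]; have := min_le_right ε 1; linarith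
  have he2 : 2 * e ≤ ε := by rw [he]; have := min_le_left ε 1; linarith
  obtain ⟨B, hB0, hB⟩ := polylog (2 * C + 1) e he0 (by linarith)
  obtain ⟨K, hK⟩ : ∃ K : ℕ, K = 2 * (c + 1) * (40 * (C + 1) ^ 2 * C + 2) := ⟨_, rfl⟩
  refine ⟨e, K * (⌈B⌉₊ + 1) + (3 * C + 1), he0, fun n hn => ?_⟩
  obtain ⟨s, t, hs, ht, hR⟩ := hF n hn
  obtain ⟨L, hL⟩ : ∃ L : ℕ, L = Nat.clog 2 n := ⟨_, rfl⟩
  rw [← hL] at ht hR
  have hBn := hB n hn
  rw [← hL] at hBn ⊢
  have hL1 : 1 ≤ L := by rw [hL]; exact Nat.clog_pos (by norm_num) hn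
  have hL1' : (1 : ℝ) ≤ L := by exact_mod_cast hL1
  have hCn := hCl n hn
  rw [← hL] at hCn
  have hnL : n ≤ 2 ^ L := by rw [hL]; exact Nat.le_pow_clog (by norm_num) n
  obtain ⟨D, hD⟩ : ∃ D : ℝ, D = ((C : ℝ) + 1) * (L : ℝ) ^ C := ⟨_, rfl⟩
  have hD1 : 1 ≤ D := by
    rw [hD]
    have h1 : (1 : ℝ) ≤ (L : ℝ) ^ C := one_le_pow₀ hL1'
    have h2 : (1 : ℝ) ≤ (C : ℝ) + 1 := by have : (0 : ℝ) ≤ C := Nat.cast_nonneg C; linarith
    nlinarith
  have hD0 : 0 < D := by linarith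
  rw [← hD] at hR
  obtain ⟨k, hk⟩ : ∃ k : ℕ, k = 20 * (C + 1) ^ 2 * L ^ (2 * C) := ⟨_, rfl⟩
  have hkD : (k : ℝ) = 20 * D ^ 2 := by
    rw [hk, hD]
    push_cast
    rw [mul_pow, ← pow_mul, mul_comm C 2]
    ring
  have h1 : RCStructure Bool OkWeak (Cl n) s (c * L) t (1 / D / 4) := by
    refine RCStructure_mono ?_ hR
    have : 0 ≤ 1 / D := by positivity
    linarith
  have hDi : 1 / D ≤ 1 := by rw [div_le_one hD0]; exact hD1
  have h2 := hAMC hCHE hTRE hIDX (Cl n) s (c * L) t k (1 / D / 4) (by positivity) (by linarith) (by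
    have e1 : 1 - 4 * (1 / D / 4) ^ 2 ≤ Real.exp (-(1 / (4 * D ^ 2))) := by
      have h3 := Real.add_one_le_exp (-(1 / (4 * D ^ 2)))
      have h4 : 1 - 4 * (1 / D / 4) ^ 2 = -(1 / (4 * D ^ 2)) + 1 := by
        field_simp
        ring
      rw [h4]
      exact h3
    have e0 : 0 ≤ 1 - 4 * (1 / D / 4) ^ 2 := by
      have h5 : (1 / D) ^ 2 ≤ 1 := pow_le_one₀ (by positivity) hDi
      nlinarith
    calc (1 - 4 * (1 / D / 4) ^ 2) ^ k ≤ Real.exp (-(1 / (4 * D ^ 2))) ^ k := pow_le_pow_left₀ e0 e1 k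
      _ = Real.exp (-5) := by
          rw [← Real.exp_nat_mul, hkD]
          congr 1
          field_simp
          norm_num
      _ ≤ 1 / 64 := by
          rw [Real.exp_neg, one_div]
          apply inv_anti₀ (by norm_num)
          have h6 : (2.7 : ℝ) ≤ Real.exp 1 := by
            have := Real.exp_one_gt_d9
            linarith
          have h7 : Real.exp 5 = Real.exp 1 ^ 5 := by
            rw [← Real.exp_nat_mul]
            norm_num
          rw [h7]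
          calc (64 : ℝ) ≤ 2.7 ^ 5 := by norm_num
            _ ≤ Real.exp 1 ^ 5 := pow_le_pow_left₀ (by norm_num) h6 5) h1
  have hcL : 8 ≤ c * L := by nlinarith
  have h3 := hDEC hNEW hMAJ hTRE hIDX (Cl n) n (2 ^ (c * L)) (2 * k * s) (c * L) (2 * k * t) hcL (by
    calc n ^ 8 ≤ (2 ^ L) ^ 8 := Nat.pow_le_pow_left hnL 8
      _ = 2 ^ (8 * L) := by rw [← pow_mul, mul_comm]
      _ ≤ 2 ^ (c * L) := Nat.pow_le_pow_right (by norm_num) (Nat.mul_le_mul_right L hc)) le_rfl hCn h2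
  refine ⟨_, _, ?_, ?_, h3⟩
  · -- space
    have hn1 : (1 : ℝ) ≤ n := by exact_mod_cast (show 1 ≤ n by omega)
    have hn0 : (0 : ℝ) < n := by linarith
    obtain ⟨X, hX⟩ : ∃ X : ℝ, X = (n : ℝ) ^ (2 - 2 * e) := ⟨_, rfl⟩
    have hX1 : 1 ≤ X := by rw [hX]; exact Real.one_le_rpow hn1 (by linarith)
    have hs2 : (s : ℝ) ≤ C * X := by
      refine hs.trans (mul_le_mul_of_nonneg_left ?_ (Nat.cast_nonneg C))
      rw [hX]
      exact Real.rpow_le_rpow_of_exponent_le hn1 (by linarith)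
    have hw : ((c * L : ℕ) : ℝ) + 1 ≤ (c + 1) * L := by push_cast; nlinarith
    have hLp : (1 : ℝ) ≤ (L : ℝ) ^ (2 * C) := one_le_pow₀ hL1'
    have hin : 2 * (k : ℝ) * s + 2 ≤ (40 * ((C : ℝ) + 1) ^ 2 * C + 2) * ((L : ℝ) ^ (2 * C) * X) := by
      have h4 : 2 * (k : ℝ) * s ≤ 2 * (k : ℝ) * (C * X) := mul_le_mul_of_nonneg_left hs2 (by positivity)
      have h5 : 2 * (k : ℝ) * (C * X) = 40 * ((C : ℝ) + 1) ^ 2 * C * ((L : ℝ) ^ (2 * C) * X) := by
        rw [hk]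
        push_cast
        ring
      have h6 : 1 ≤ (L : ℝ) ^ (2 * C) * X := by nlinarith
      rw [add_mul, ← h5]
      linarith
    have hmain : ((2 * (c * L + 1) * (2 * k * s + 2) : ℕ) : ℝ) ≤ K * ((L : ℝ) ^ (2 * C + 1) * X) := by
      push_cast
      push_cast at hw
      calc 2 * ((c : ℝ) * L + 1) * (2 * k * s + 2)
          ≤ 2 * ((c + 1) * L) * ((40 * ((C : ℝ) + 1) ^ 2 * C + 2) * ((L : ℝ) ^ (2 * C) * X)) := by
            apply mul_le_mul _ hin (by positivity) (by positivity)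
            linarith
        _ = K * ((L : ℝ) ^ (2 * C + 1) * X) := by
            rw [hK]
            push_cast
            ring
    refine hmain.trans ?_
    have hXe : (n : ℝ) ^ e * X = (n : ℝ) ^ (2 - e) := by
      rw [hX, ← Real.rpow_add hn0]
      congr 1
      ring
    have hp : 0 ≤ (n : ℝ) ^ (2 - e) := Real.rpow_nonneg hn0.le _
    calc (K : ℝ) * ((L : ℝ) ^ (2 * C + 1) * X) ≤ K * (B * (n : ℝ) ^ e * X) := by
          apply mul_le_mul_of_nonneg_left _ (Nat.cast_nonneg K)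
          exact mul_le_mul_of_nonneg_right hBn (by linarith)
      _ = K * B * (n : ℝ) ^ (2 - e) := by rw [← hXe]; ring
      _ ≤ ((K * (⌈B⌉₊ + 1) + (3 * C + 1) : ℕ) : ℝ) * (n : ℝ) ^ (2 - e) := by
          apply mul_le_mul_of_nonneg_right _ hp
          push_cast
          have h8 : B ≤ ⌈B⌉₊ := Nat.le_ceil B
          have h9 : (0 : ℝ) ≤ K := Nat.cast_nonneg K
          have h10 : (0 : ℝ) ≤ C := Nat.cast_nonneg C
          nlinarith [mul_le_mul_of_nonneg_left h8 h9]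
  · -- time
    have hLC : 1 ≤ L ^ (3 * C) := Nat.one_le_pow _ _ hL1
    have hin : 2 * k * t + 2 ≤ (40 * (C + 1) ^ 2 * C + 2) * L ^ (3 * C) := by
      calc 2 * k * t + 2 ≤ 2 * k * (C * L ^ C) + 2 * L ^ (3 * C) := by
            apply Nat.add_le_add (Nat.mul_le_mul_left _ ht)
            omega
        _ = (40 * (C + 1) ^ 2 * C + 2) * L ^ (3 * C) := by
            rw [hk]
            have : L ^ (3 * C) = L ^ (2 * C) * L ^ C := by rw [← pow_add]; congr 1; ring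
            rw [this]
            ring
    have hw : c * L + 1 ≤ (c + 1) * L := by nlinarith
    calc 2 * (c * L + 1) * (2 * k * t + 2) ≤ 2 * ((c + 1) * L) * ((40 * (C + 1) ^ 2 * C + 2) * L ^ (3 * C)) :=
          Nat.mul_le_mul (Nat.mul_le_mul_left _ hw) hin
      _ = K * L ^ (3 * C + 1) := by rw [hK, pow_succ]; ring
      _ ≤ (K * (⌈B⌉₊ + 1) + (3 * C + 1)) * L ^ (K * (⌈B⌉₊ + 1) + (3 * C + 1)) := by
          apply Nat.mul_le_mul
          · nlinarith [Nat.zero_le (K * ⌈B⌉₊)]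
          · exact Nat.pow_le_pow_right hL1 (Nat.le_add_left _ _)

end Pool.Agent.J4H53.IX
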